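import Mathlib

/-!
# Valuations of the second coordinates of the powers of a solution of Pell's equation
-/

set_option autoImplicit false

open Finset

namespace Pool.Agent.Lib.Pabc7

open Pell

variable {d : ℤ}

theorem pow_xy (a : Solution₁ d) (j : ℕ) :
    ∃ u v : ℤ, (a ^ j).x = a.x ^ j + a.y ^ 2 * u ∧
      (a ^ j).y = j * a.x ^ (j - 1) * a.y + a.y ^ 3 * v := by
  induction j with
  | zero => exact ⟨0, 0, by simp, by simp⟩
  | succ j ih =>
    obtain ⟨u, v, hx, hy⟩ := ih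
    refine ⟨u * a.x + d * (j * a.x ^ (j - 1) + a.y ^ 2 * v), u + v * a.x, ?_, ?_⟩
    · rw [pow_succ, Solution₁.x_mul, hx, hy]
      ring
    · rw [pow_succ, Solution₁.y_mul, hx, hy]
      rcases Nat.eq_zero_or_pos j with rfl | hj
      · simp
        ring
      · obtain ⟨k, rfl⟩ : ∃ k, j = k + 1 := ⟨j - 1, by omega⟩
        simp only [Nat.add_sub_cancel]
        push_cast
        ring

theorem not_dvd_x {q : ℕ} (hq : q.Prime) (a : Solution₁ d) (h : (q : ℤ) ∣ a.y) :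
    ¬ (q : ℤ) ∣ a.x := by
  intro hx
  have h1 : (q : ℤ) ∣ a.x ^ 2 - d * a.y ^ 2 :=
    dvd_sub (hx.trans (dvd_pow_self _ (by norm_num)))
      ((h.trans (dvd_pow_self _ (by norm_num))).trans (Dvd.intro_left _ rfl))
  rw [a.prop] at h1
  have h2 := Int.le_of_dvd (by norm_num) h1
  have h3 := hq.two_le
  omega

/-- Lifting the exponent for Pell sequences (upper bound). -/
theorem lte_upper {q : ℕ} (hq : q.Prime) (t : ℕ) : ∀ (s : ℕ) (a : Solution₁ d) (j : ℕ),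
    1 ≤ s → (q : ℤ) ^ s ∣ a.y → ¬ (q : ℤ) ^ (s + 1) ∣ a.y → ¬ q ^ (t + 1) ∣ j →
    ¬ (q : ℤ) ^ (s + t + 1) ∣ (a ^ j).y := by
  have hqp : Prime (q : ℤ) := Nat.prime_iff_prime_int.mp hq
  have hq0 : (q : ℤ) ≠ 0 := hqp.ne_zero
  -- the case `q ∤ j`
  have base : ∀ (s : ℕ) (a : Solution₁ d) (j : ℕ), 1 ≤ s → (q : ℤ) ^ s ∣ a.y →
      ¬ (q : ℤ) ^ (s + 1) ∣ a.y → ¬ q ∣ j → ¬ (q : ℤ) ^ (s + 1) ∣ (a ^ j).y := by
    intro s a j hs h1 h2 h3 h4
    obtain ⟨u, v, -, hy⟩ := pow_xy a j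
    obtain ⟨c, hc⟩ := h1
    have hqc : ¬ (q : ℤ) ∣ c := by
      intro h
      apply h2
      rw [hc, pow_succ]
      exact mul_dvd_mul_left _ h
    have hqy : (q : ℤ) ∣ a.y := by
      rw [hc]
      exact Dvd.dvd.mul_right (dvd_pow_self _ (by omega)) _
    have hqx := not_dvd_x hq a hqy
    have e : (a ^ j).y = (q : ℤ) ^ s * (c * (j * a.x ^ (j - 1) + a.y ^ 2 * v)) := by
      rw [hy]
      nth_rewrite 1 [hc]
      have : a.y ^ 3 * v = (q : ℤ) ^ s * c * (a.y ^ 2 * v) := by rw [← hc]; ring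
      rw [this]
      ring
    rw [e, pow_succ] at h4
    have h5 := (mul_dvd_mul_iff_left (pow_ne_zero s hq0)).mp h4
    rcases hqp.dvd_or_dvd h5 with h6 | h6
    · exact hqc h6
    · have h7 : (q : ℤ) ∣ j * a.x ^ (j - 1) := by
        have h8 : (q : ℤ) ∣ a.y ^ 2 * v :=
          Dvd.dvd.mul_right (hqy.trans (dvd_pow_self _ (by norm_num))) _
        exact (dvd_add_left h8).mp h6
      rcases hqp.dvd_or_dvd h7 with h8 | h8
      · exact h3 (Int.natCast_dvd_natCast.mp h8)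
      · exact hqx (hqp.dvd_of_dvd_pow h8)
  induction t with
  | zero =>
    intro s a j hs h1 h2 h3
    rw [zero_add, pow_one] at h3
    exact base s a j hs h1 h2 h3
  | succ t ih =>
    intro s a j hs h1 h2 h3
    by_cases hqj : q ∣ j
    · obtain ⟨j1, rfl⟩ := hqj
      have h4 : ¬ q ^ (t + 1) ∣ j1 := by
        intro h
        apply h3
        rw [pow_succ, mul_comm]
        exact mul_dvd_mul_left _ h
      obtain ⟨u, v, -, hy⟩ := pow_xy a q
      obtain ⟨c, hc⟩ := h1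
      have hqc : ¬ (q : ℤ) ∣ c := by
        intro h
        apply h2
        rw [hc, pow_succ]
        exact mul_dvd_mul_left _ h
      have hqy : (q : ℤ) ∣ a.y := by
        rw [hc]
        exact Dvd.dvd.mul_right (dvd_pow_self _ (by omega)) _
      have hqx := not_dvd_x hq a hqy
      obtain ⟨s', rfl⟩ : ∃ s', s = s' + 1 := ⟨s - 1, by omega⟩
      -- a^q has exact valuation s+1
      have e : (a ^ q).y = (q : ℤ) ^ (s' + 1 + 1) *
          (c * (a.x ^ (q - 1) + q * ((q : ℤ) ^ (2 * s') * c ^ 2 * v))) := by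
        rw [hy]
        have e2 : a.y ^ 3 * v = (q : ℤ) ^ (s' + 1) * c * (((q : ℤ) ^ (s' + 1) * c) ^ 2 * v) := by
          rw [← hc]
          ring
        rw [e2]
        nth_rewrite 1 [hc]
        ring
      have g1 : (q : ℤ) ^ (s' + 1 + 1) ∣ (a ^ q).y := by
        rw [e]
        exact Dvd.intro _ rfl
      have g2 : ¬ (q : ℤ) ^ (s' + 1 + 1 + 1) ∣ (a ^ q).y := by
        intro h
        rw [e, pow_succ _ (s' + 1 + 1)] at h
        have h5 := (mul_dvd_mul_iff_left (pow_ne_zero (s' + 1 + 1) hq0)).mp h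
        rcases hqp.dvd_or_dvd h5 with h6 | h6
        · exact hqc h6
        · have h7 := (dvd_add_left (Dvd.intro _ rfl)).mp h6
          exact hqx (hqp.dvd_of_dvd_pow h7)
      have h5 := ih (s' + 1 + 1) (a ^ q) j1 (by omega) g1 g2 h4
      rw [← pow_mul] at h5
      have e3 : s' + 1 + 1 + t + 1 = s' + 1 + (t + 1) + 1 := by omega
      rw [e3] at h5
      exact h5
    · have h4 := base s a j hs h1 h2 hqj
      intro h5
      exact h4 ((pow_dvd_pow _ (by omega)).trans h5)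

theorem y_sub (a : Solution₁ d) (m i : ℕ) :
    (a ^ (m + i)).y * (a ^ i).x - (a ^ (m + i)).x * (a ^ i).y = (a ^ m).y := by
  rw [pow_add, Solution₁.x_mul, Solution₁.y_mul]
  have h := (a ^ i).prop
  linear_combination ((a ^ m).y) * h

theorem y_dvd_pow (a : Solution₁ d) (j : ℕ) : a.y ∣ (a ^ j).y := by
  obtain ⟨u, v, -, hy⟩ := pow_xy a j
  rw [hy]
  exact ⟨j * a.x ^ (j - 1) + a.y ^ 2 * v, by ring⟩

/-- The rank of apparition is at most `q + 1`. -/
theorem rank_le {q : ℕ} (hq : q.Prime) (a : Solution₁ d) :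
    ∃ ρ : ℕ, 1 ≤ ρ ∧ ρ ≤ q + 1 ∧ (q : ℤ) ∣ (a ^ ρ).y := by
  classical
  by_contra hcon
  push Not at hcon
  have : Fact q.Prime := ⟨hq⟩
  have hne : ∀ j ∈ Icc 1 (q + 1), (((a ^ j).y : ℤ) : ZMod q) ≠ 0 := by
    intro j hj h
    rw [mem_Icc] at hj
    exact hcon j hj.1 hj.2 ((ZMod.intCast_zmod_eq_zero_iff_dvd _ _).mp h)
  set f : ℕ → ZMod q := fun j => ((a ^ j).x : ZMod q) * ((a ^ j).y : ZMod q)⁻¹ with hf
  obtain ⟨i, hi, j, hj, hij, heq⟩ := Finset.exists_ne_map_eq_of_card_lt_of_maps_to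
    (s := Icc 1 (q + 1)) (t := (Finset.univ : Finset (ZMod q))) (f := f)
    (by rw [Finset.card_univ, ZMod.card, Nat.card_Icc]; omega) (fun _ _ => mem_univ _)
  have key : ∀ i j, i ∈ Icc 1 (q + 1) → j ∈ Icc 1 (q + 1) → i < j → f i = f j → False := by
    intro i j hi hj hij heq
    obtain ⟨m, rfl⟩ : ∃ m, j = m + i := ⟨j - i, by omega⟩
    have h1 := y_sub a m i
    have h2 : (((a ^ (m + i)).y * (a ^ i).x - (a ^ (m + i)).x * (a ^ i).y : ℤ) : ZMod q) = 0 := by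
      push_cast
      have hni := hne i hi
      have hnj := hne (m + i) hj
      simp only [hf] at heq
      field_simp at heq
      linear_combination heq
    rw [h1] at h2
    rw [mem_Icc] at hi hj
    exact hcon m (by omega) (by omega) ((ZMod.intCast_zmod_eq_zero_iff_dvd _ _).mp h2)
  rcases lt_or_gt_of_ne hij with h | h
  · exact key i j hi hj h heq
  · exact key j i hj hi h heq.symm

/-- If `q ∣ (a ^ k).y` there is a divisor `ρ ≤ q + 1` of `k` with `q ∣ (a ^ ρ).y`. -/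
theorem rank_dvd {q : ℕ} (hq : q.Prime) (a : Solution₁ d) {k : ℕ}
    (hk : (q : ℤ) ∣ (a ^ k).y) :
    ∃ ρ : ℕ, 1 ≤ ρ ∧ ρ ≤ q + 1 ∧ ρ ∣ k ∧ (q : ℤ) ∣ (a ^ ρ).y := by
  classical
  have hex : ∃ ρ : ℕ, 1 ≤ ρ ∧ (q : ℤ) ∣ (a ^ ρ).y := by
    obtain ⟨ρ, h1, -, h3⟩ := rank_le hq a
    exact ⟨ρ, h1, h3⟩
  set ρ := Nat.find hex with hρ
  obtain ⟨h1, h2⟩ := Nat.find_spec hex
  rw [← hρ] at h1 h2
  refine ⟨ρ, h1, ?_, ?_, h2⟩
  · obtain ⟨ρ', g1, g2, g3⟩ := rank_le hq a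
    exact (Nat.find_min' hex ⟨g1, g3⟩).trans g2
  · rw [Nat.dvd_iff_mod_eq_zero]
    by_contra hne
    have hpos : 1 ≤ k % ρ := Nat.one_le_iff_ne_zero.mpr hne
    have hlt : k % ρ < ρ := Nat.mod_lt _ (by omega)
    have h3 : (q : ℤ) ∣ (a ^ (k % ρ)).y := by
      have h4 := y_sub a (k % ρ) (ρ * (k / ρ))
      rw [Nat.mod_add_div] at h4
      rw [← h4]
      apply dvd_sub
      · exact Dvd.dvd.mul_right hk _
      · apply Dvd.dvd.mul_left
        rw [pow_mul]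
        exact h2.trans (y_dvd_pow _ _)
    have := Nat.find_min' hex ⟨hpos, h3⟩
    omega

end Pool.Agent.Lib.Pabc7
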