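import Mathlib

/-!
# A solution of Pell's equation with an explicit size bound (Dirichlet pigeonhole)
-/

set_option autoImplicit false

open Finset

namespace Pool.Agent.Lib.Pabc7

theorem norm_eq_mul (D : ℕ) (p q : ℤ) :
    ((p ^ 2 - D * q ^ 2 : ℤ) : ℝ) = (p - q * Real.sqrt D) * (p + q * Real.sqrt D) := by
  have h := Real.mul_self_sqrt (Nat.cast_nonneg (α := ℝ) D)
  push_cast
  linear_combination ((q : ℝ) ^ 2) * h

theorem sqrt_le_self' {D : ℕ} (hD : 1 ≤ D) : Real.sqrt D ≤ D := by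
  have h1 : (1 : ℝ) ≤ D := by exact_mod_cast hD
  calc Real.sqrt D ≤ Real.sqrt ((D : ℝ) ^ 2) := by
        apply Real.sqrt_le_sqrt
        nlinarith
    _ = D := Real.sqrt_sq (by linarith)

theorem norm_ne_zero {D : ℕ} (hD : ¬ IsSquare D) (p q : ℤ) (hq : 0 < q) :
    p ^ 2 - D * q ^ 2 ≠ 0 := by
  intro h
  apply hD
  have h1 : p ^ 2 = D * q ^ 2 := by linarith
  have h2 : q ^ 2 ∣ p ^ 2 := ⟨D, by rw [h1]; ring⟩
  have h3 : q ∣ p := (Int.pow_dvd_pow_iff (by norm_num)).mp h2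
  obtain ⟨c, rfl⟩ := h3
  have h4 : c ^ 2 = D := by
    have h5 : q ^ 2 * c ^ 2 = q ^ 2 * D := by rw [← mul_pow, h1]; ring
    exact mul_left_cancel₀ (by positivity) h5
  refine ⟨c.natAbs, ?_⟩
  have h6 : ((c.natAbs * c.natAbs : ℕ) : ℤ) = D := by
    push_cast
    rw [← abs_mul, abs_mul_self, ← h4]
    ring
  exact_mod_cast h6.symm

/-- The number of pigeonholes. -/
def cnt (D : ℕ) : ℕ := (4 * D + 3) * (2 * D + 2) ^ 2

theorem small_pell (D : ℕ) (hD2 : 2 ≤ D) (hD : ¬ IsSquare D) :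
    ∃ X Y : ℤ, X ^ 2 - D * Y ^ 2 = 1 ∧ Y ≠ 0 ∧ |X| ≤ (4 * (D : ℤ)) ^ (2 * cnt D + 2) := by
  classical
  set d : ℝ := Real.sqrt D with hd
  have hd0 : 0 ≤ d := Real.sqrt_nonneg _
  have hdD : d ≤ D := sqrt_le_self' (by omega)
  have hD2' : (2 : ℝ) ≤ D := by exact_mod_cast hD2
  have hex : ∀ j : ℕ, ∃ p q : ℤ, 0 < q ∧ q ≤ ((4 * D) ^ j : ℕ) ∧
      |(q : ℝ) * d - p| ≤ 1 / (((4 * D) ^ j : ℕ) + 1) := by
    intro j
    have hpos : 0 < (4 * D) ^ j := by positivity
    exact Real.exists_int_int_abs_mul_sub_le d hpos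
  choose p q hq0 hqle happ using hex
  -- lower bound for the error
  set δ : ℕ → ℝ := fun j => |(q j : ℝ) * d - p j| with hδ
  have hqR : ∀ j, (0 : ℝ) < q j := fun j => by exact_mod_cast hq0 j
  have hNR : ∀ j : ℕ, (1 : ℝ) ≤ ((4 * D) ^ j : ℕ) := fun j => by
    have : 1 ≤ (4 * D) ^ j := Nat.one_le_pow _ _ (by omega)
    exact_mod_cast this
  have hqN : ∀ j, (q j : ℝ) ≤ ((4 * D) ^ j : ℕ) := fun j => by exact_mod_cast hqle j
  have hδ1 : ∀ j, δ j ≤ 1 := by
    intro j
    refine (happ j).trans ?_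
    rw [div_le_one (by positivity)]
    have := hNR j
    linarith
  have hpabs : ∀ j, |(p j : ℝ) + q j * d| ≤ 2 * (q j * d) + 1 := by
    intro j
    have h1 := hδ1 j
    simp only [hδ] at h1
    rw [abs_le] at h1 ⊢
    have h2 : 0 ≤ (q j : ℝ) * d := mul_nonneg (hqR j).le hd0
    constructor <;> linarith
  have hδlow : ∀ j, 1 ≤ δ j * (2 * (q j * d) + 1) := by
    intro j
    have h1 : (1 : ℝ) ≤ |((p j ^ 2 - D * q j ^ 2 : ℤ) : ℝ)| := by
      have := Int.one_le_abs (norm_ne_zero hD (p j) (q j) (hq0 j))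
      exact_mod_cast this
    rw [norm_eq_mul, abs_mul, ← hd] at h1
    have h2 : |(p j : ℝ) - q j * d| = δ j := by
      simp only [hδ]
      rw [abs_sub_comm]
    rw [h2] at h1
    exact h1.trans (mul_le_mul_of_nonneg_left (hpabs j) (abs_nonneg _))
  have hdec : ∀ i j, i < j → δ j < δ i := by
    intro i j hij
    have h1 : δ j ≤ 1 / (((4 * D) ^ j : ℕ) + 1) := happ j
    have h2 : 2 * (q i * d) + 1 < (((4 * D) ^ j : ℕ) : ℝ) + 1 := by
      have h3 : ((4 * D) ^ (i + 1) : ℕ) ≤ (4 * D) ^ j := Nat.pow_le_pow_right (by omega) hij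
      have h4 : (((4 * D) ^ (i + 1) : ℕ) : ℝ) ≤ ((4 * D) ^ j : ℕ) := by exact_mod_cast h3
      have h5 : (((4 * D) ^ (i + 1) : ℕ) : ℝ) = ((4 * D) ^ i : ℕ) * (4 * D) := by
        push_cast
        ring
      have h6 : (q i : ℝ) * d ≤ ((4 * D) ^ i : ℕ) * D :=
        mul_le_mul (hqN i) hdD hd0 (by positivity)
      have h7 : (0 : ℝ) < ((4 * D) ^ i : ℕ) * D := by
        have := hNR i
        positivity
      linarith
    have h8 : 0 < 2 * (q i * d) + 1 := by
      have := mul_nonneg (hqR i).le hd0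
      linarith
    have h9 : 1 / (2 * (q i * d) + 1) ≤ δ i := by
      rw [div_le_iff₀ h8]
      exact hδlow i
    calc δ j ≤ 1 / (((4 * D) ^ j : ℕ) + 1) := h1
      _ < 1 / (2 * (q i * d) + 1) := one_div_lt_one_div_of_lt h8 h2
      _ ≤ δ i := h9
  -- the norms
  set n : ℕ → ℤ := fun j => p j ^ 2 - D * q j ^ 2 with hn
  have hn0 : ∀ j, n j ≠ 0 := fun j => norm_ne_zero hD (p j) (q j) (hq0 j)
  have hnle : ∀ j, |n j| ≤ 2 * D + 1 := by
    intro j
    have h1 : |((n j : ℤ) : ℝ)| ≤ 2 * D + 1 := by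
      simp only [hn]
      rw [norm_eq_mul, abs_mul, ← hd]
      have h2 : |(p j : ℝ) - q j * d| = δ j := by
        simp only [hδ]
        rw [abs_sub_comm]
      rw [h2]
      have h3 : δ j ≤ 1 / (((4 * D) ^ j : ℕ) + 1) := happ j
      have hN := hNR j
      calc δ j * |(p j : ℝ) + q j * d| ≤
          1 / (((4 * D) ^ j : ℕ) + 1) * (2 * (((4 * D) ^ j : ℕ) * D) + 1) := by
            apply mul_le_mul h3 _ (abs_nonneg _) (by positivity)
            refine (hpabs j).trans ?_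
            have := mul_le_mul (hqN j) hdD hd0 (by positivity)
            linarith
        _ ≤ 2 * D + 1 := by
            rw [div_mul_eq_mul_div, div_le_iff₀ (by positivity)]
            nlinarith
    exact_mod_cast h1
  -- pigeonhole
  set B : ℤ := 2 * D + 1 with hB
  set t : Finset (ℤ × ℤ × ℤ) := Icc (-B) B ×ˢ (Icc 0 B ×ˢ Icc 0 B) with ht
  have hcard : t.card = cnt D := by
    rw [ht, card_product, card_product, Int.card_Icc, Int.card_Icc, cnt]
    have e1 : (B + 1 - -B).toNat = 4 * D + 3 := by omega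
    have e2 : (B + 1 - 0).toNat = 2 * D + 2 := by omega
    rw [e1, e2]
    ring
  have hmaps : ∀ j ∈ range (cnt D + 1), (n j, p j % n j, q j % n j) ∈ t := by
    intro j _
    rw [ht, mem_product, mem_product, mem_Icc, mem_Icc, mem_Icc]
    have h1 := abs_le.mp (hnle j)
    have h2 := Int.emod_nonneg (p j) (hn0 j)
    have h3 := Int.emod_lt_abs (p j) (hn0 j)
    have h4 := Int.emod_nonneg (q j) (hn0 j)
    have h5 := Int.emod_lt_abs (q j) (hn0 j)
    have h6 := hnle j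
    exact ⟨⟨h1.1, h1.2⟩, ⟨h2, (h3.trans_le h6).le⟩, ⟨h4, (h5.trans_le h6).le⟩⟩
  obtain ⟨i, hi, j, hj, hne, heq⟩ := Finset.exists_ne_map_eq_of_card_lt_of_maps_to
    (by rw [hcard, card_range]; exact Nat.lt_succ_self _) hmaps
  simp only [Prod.mk.injEq] at heq
  obtain ⟨e1, e2, e3⟩ := heq
  rw [mem_range] at hi hj
  -- n i = n j =: m
  have d1 : n i ∣ p j - p i := by
    rw [← e1] at e2
    exact Int.ModEq.dvd e2
  have d2 : n i ∣ q j - q i := by
    rw [← e1] at e3
    exact Int.ModEq.dvd e3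
  obtain ⟨u, hu⟩ := d1
  obtain ⟨v, hv⟩ := d2
  have hpj : p j = p i + n i * u := by linarith
  have hqj : q j = q i + n i * v := by linarith
  have hni : n i = p i ^ 2 - D * q i ^ 2 := rfl
  have hnj : n i = p j ^ 2 - D * q j ^ 2 := e1
  -- X = (p_i p_j - D q_i q_j)/n, Y = (p_j q_i - p_i q_j)/n
  set X : ℤ := 1 + p i * u - D * q i * v with hX
  set Yy : ℤ := u * q i - p i * v with hY
  have hXn : n i * X = p i * p j - D * q i * q j := by
    rw [hX, hpj, hqj]
    rw [mul_sub, mul_add, mul_one]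
    nth_rewrite 1 [hni]
    ring
  have hYn : n i * Yy = p j * q i - p i * q j := by
    rw [hY, hpj, hqj]
    ring
  refine ⟨X, Yy, ?_, ?_, ?_⟩
  · have h1 : (n i) ^ 2 * (X ^ 2 - D * Yy ^ 2) = (n i) ^ 2 * 1 := by
      calc (n i) ^ 2 * (X ^ 2 - D * Yy ^ 2) = (n i * X) ^ 2 - D * (n i * Yy) ^ 2 := by ring
        _ = (p i ^ 2 - D * q i ^ 2) * (p j ^ 2 - D * q j ^ 2) := by
            rw [hXn, hYn]
            ring
        _ = (n i) ^ 2 * 1 := by
            rw [← hni, ← hnj]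
            ring
    exact mul_left_cancel₀ (pow_ne_zero 2 (hn0 i)) h1
  · intro hY0
    rw [hY0, mul_zero] at hYn
    have h1 : p j * q i = p i * q j := by linarith
    have h2 : (q j) ^ 2 * n i = (q i) ^ 2 * n i := by
      nth_rewrite 1 [hni]
      rw [hnj]
      have : (q j) ^ 2 * p i ^ 2 = (p j * q i) ^ 2 := by rw [h1]; ring
      linear_combination this
    have h3 : (q j) ^ 2 = (q i) ^ 2 := mul_right_cancel₀ (hn0 i) h2
    have h4 : q j = q i := by
      have := hq0 j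
      have := hq0 i
      nlinarith
    have h5 : p j = p i := by
      rw [h4] at h1
      exact mul_right_cancel₀ (hq0 i).ne' h1
    have h6 : δ i = δ j := by
      simp only [hδ]
      rw [h4, h5]
    rcases lt_or_gt_of_ne hne with h | h
    · exact absurd h6 (hdec i j h).ne'
    · exact absurd h6 (hdec j i h).ne
  · -- size
    have hn1 : 1 ≤ |n i| := Int.one_le_abs (hn0 i)
    have hpb : ∀ k, k < cnt D + 1 → |(p k : ℝ)| ≤ 2 * D * ((4 * D) ^ cnt D : ℕ) := by
      intro k hk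
      have h1 := hδ1 k
      simp only [hδ] at h1
      have h2 : (q k : ℝ) * d ≤ ((4 * D) ^ cnt D : ℕ) * D := by
        apply mul_le_mul _ hdD hd0 (by positivity)
        refine (hqN k).trans ?_
        exact_mod_cast Nat.pow_le_pow_right (by omega) (by omega)
      have h3 : 0 ≤ (q k : ℝ) * d := mul_nonneg (hqR k).le hd0
      have h4 := hNR (cnt D)
      rw [abs_le] at h1 ⊢
      constructor <;> nlinarith
    have hqb : ∀ k, k < cnt D + 1 → |(q k : ℝ)| ≤ ((4 * D) ^ cnt D : ℕ) := by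
      intro k hk
      rw [abs_of_pos (hqR k)]
      refine (hqN k).trans ?_
      exact_mod_cast Nat.pow_le_pow_right (by omega) (by omega)
    have h1 : |(X : ℝ)| ≤ (4 * (D : ℝ)) ^ (2 * cnt D + 2) := by
      have h2 : |(n i : ℝ)| * |(X : ℝ)| ≤ |(p i : ℝ)| * |(p j : ℝ)| + D * (|(q i : ℝ)| * |(q j : ℝ)|) := by
        rw [← abs_mul]
        have h3 : (n i : ℝ) * X = p i * p j - D * q i * q j := by exact_mod_cast hXn
        rw [h3]
        refine (abs_sub _ _).trans ?_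
        rw [abs_mul, abs_mul, abs_mul, Nat.abs_cast]
        linarith
      have h3 : (1 : ℝ) ≤ |(n i : ℝ)| := by exact_mod_cast hn1
      have h4 : |(X : ℝ)| ≤ |(n i : ℝ)| * |(X : ℝ)| := by
        have := abs_nonneg (X : ℝ)
        nlinarith
      have h5 := mul_le_mul (hpb i hi) (hpb j hj) (abs_nonneg _) (by positivity)
      have h6 := mul_le_mul (hqb i hi) (hqb j hj) (abs_nonneg _) (by positivity)
      set Nn : ℝ := (((4 * D) ^ cnt D : ℕ) : ℝ) with hNn
      have h7 : (4 * (D : ℝ)) ^ (2 * cnt D + 2) = 16 * D ^ 2 * (Nn * Nn) := by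
        rw [hNn]
        push_cast
        ring
      rw [h7]
      have h8 : 0 ≤ Nn * Nn := by positivity
      have h9 : (D : ℝ) * (Nn * Nn) ≤ D ^ 2 * (Nn * Nn) := by
        apply mul_le_mul_of_nonneg_right _ h8
        nlinarith
      have h10 : (D : ℝ) * (|(q i : ℝ)| * |(q j : ℝ)|) ≤ D * (Nn * Nn) :=
        mul_le_mul_of_nonneg_left h6 (by positivity)
      have h11 : 0 ≤ (D : ℝ) ^ 2 * (Nn * Nn) := by positivity
      nlinarith
    exact_mod_cast h1

end Pool.Agent.Lib.Pabc7
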