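import Mathlib
import Pool.Agent.Lib.Pabc7.SmallPell
import Pool.Agent.Lib.Pabc7.PellVal

/-!
# An effective form of Stoermer's theorem: `log n` is at most `3488 rad(n(n+1)) ^ 6`
-/

set_option autoImplicit false

open Finset

namespace Pool.Agent.Lib.Pabc7

open Pell

variable {d : ℤ}

theorem xpos {a : Solution₁ d} (hx : 1 < a.x) (j : ℕ) : 0 < (a ^ j).x :=
  Solution₁.x_pow_pos (by omega) j

theorem ynonneg {a : Solution₁ d} (hx : 1 < a.x) (hy : 0 < a.y) (j : ℕ) : 0 ≤ (a ^ j).y := by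
  rcases Nat.eq_zero_or_pos j with rfl | h
  · simp
  · obtain ⟨k, rfl⟩ : ∃ k, j = k + 1 := ⟨j - 1, by omega⟩
    exact (Solution₁.y_pow_succ_pos (by omega) hy k).le

theorem ypos {a : Solution₁ d} (hx : 1 < a.x) (hy : 0 < a.y) {j : ℕ} (hj : 1 ≤ j) :
    0 < (a ^ j).y := by
  obtain ⟨k, rfl⟩ : ∃ k, j = k + 1 := ⟨j - 1, by omega⟩
  exact Solution₁.y_pow_succ_pos (by omega) hy k

theorem x_pow_ge {a : Solution₁ d} (hd : 0 < d) (hx : 1 < a.x) (hy : 0 < a.y) (j : ℕ) :
    a.x ^ j ≤ (a ^ j).x := by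
  induction j with
  | zero => simp
  | succ j ih =>
    rw [pow_succ, pow_succ, Solution₁.x_mul]
    have h1 := ynonneg hx hy j
    have h2 : 0 ≤ d * ((a ^ j).y * a.y) := by positivity
    have h3 : a.x ^ j * a.x ≤ (a ^ j).x * a.x := mul_le_mul_of_nonneg_right ih (by omega)
    linarith

theorem x_pow_le {a : Solution₁ d} (hd : 0 < d) (hx : 1 < a.x) (hy : 0 < a.y) (j : ℕ) :
    (a ^ j).x ≤ (2 * a.x) ^ j := by
  induction j with
  | zero => simp
  | succ j ih =>
    rw [pow_succ, pow_succ, Solution₁.x_mul]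
    have h1 := ynonneg hx hy j
    have h0 := xpos hx j
    have h2 : d * ((a ^ j).y * a.y) ≤ (a ^ j).x * a.x := by
      apply abs_le_of_sq_le_sq' _ (by positivity) |>.2
      have e1 := (a ^ j).prop_y
      have e2 := a.prop_y
      have e3 : (d * ((a ^ j).y * a.y)) ^ 2 = (d * (a ^ j).y ^ 2) * (d * a.y ^ 2) := by ring
      rw [e3, e1, e2]
      nlinarith [sq_nonneg ((a ^ j).x), sq_nonneg a.x]
    have h3 : (a ^ j).x * a.x ≤ (2 * a.x) ^ j * a.x := mul_le_mul_of_nonneg_right ih (by omega)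
    linarith

theorem y_le_x {a : Solution₁ d} (hd : 0 < d) (hx : 1 < a.x) (hy : 0 < a.y) (j : ℕ) :
    (a ^ j).y ≤ (a ^ j).x := by
  have h1 := (a ^ j).prop_y
  have h2 := ynonneg hx hy j
  have h3 := xpos hx j
  by_contra h
  push Not at h
  nlinarith

theorem x_le_y {a : Solution₁ d} (hd : 0 < d) (hx : 1 < a.x) (hy : 0 < a.y) {j : ℕ}
    (hj : 1 ≤ j) : (a ^ j).x ≤ (d + 1) * (a ^ j).y := by
  have h1 := (a ^ j).prop_x
  have h2 := ypos hx hy hj
  have h3 := xpos hx j
  apply abs_le_of_sq_le_sq' _ (by positivity) |>.2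
  rw [h1]
  nlinarith [sq_nonneg ((a ^ j).y)]

/-- The main valuation estimate. -/
theorem y_pow_le {a : Solution₁ d} (hd : 0 < d) (hx : 1 < a.x) (hy : 0 < a.y) {k : ℕ}
    (hk : 1 ≤ k) :
    (a ^ k).y ≤ k * ∏ q ∈ ((a ^ k).y.natAbs).primeFactors, (2 * a.x) ^ (q + 1) := by
  classical
  set Yk : ℕ := (a ^ k).y.natAbs with hYk
  have hYpos := ypos hx hy hk
  have hYk0 : Yk ≠ 0 := by
    rw [hYk]
    simpa using hYpos.ne'
  have hcast : ((Yk : ℕ) : ℤ) = (a ^ k).y := by
    rw [hYk]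
    exact Int.natAbs_of_nonneg hYpos.le
  -- choose ranks
  have hrank : ∀ q ∈ Yk.primeFactors, ∃ ρ : ℕ, 1 ≤ ρ ∧ ρ ≤ q + 1 ∧ ρ ∣ k ∧
      (q : ℤ) ∣ (a ^ ρ).y := by
    intro q hq
    have hqp := Nat.prime_of_mem_primeFactors hq
    apply rank_dvd hqp a
    rw [← hcast]
    exact_mod_cast Nat.dvd_of_mem_primeFactors hq
  -- the bound for each prime
  have hval : ∀ q ∈ Yk.primeFactors, (q : ℤ) ^ (Yk.factorization q) ≤
      (2 * a.x) ^ (q + 1) * (q : ℤ) ^ (k.factorization q) := by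
    intro q hq
    have hqp := Nat.prime_of_mem_primeFactors hq
    obtain ⟨ρ, h1, h2, ⟨j, hj⟩, h4⟩ := hrank q hq
    have hj0 : j ≠ 0 := by
      rintro rfl
      omega
    have hyρ := ypos hx hy h1
    set w : ℕ := (a ^ ρ).y.natAbs with hw
    have hw0 : w ≠ 0 := by
      rw [hw]
      simpa using hyρ.ne'
    have hwcast : ((w : ℕ) : ℤ) = (a ^ ρ).y := by
      rw [hw]
      exact Int.natAbs_of_nonneg hyρ.le
    have hs1 : 1 ≤ w.factorization q := by
      rw [← hqp.pow_dvd_iff_le_factorization hw0, pow_one, ← Int.natCast_dvd_natCast, hwcast]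
      exact h4
    have hs2 : (q : ℤ) ^ (w.factorization q) ∣ (a ^ ρ).y := by
      rw [← hwcast]
      exact_mod_cast Nat.ordProj_dvd w q
    have hs3 : ¬ (q : ℤ) ^ (w.factorization q + 1) ∣ (a ^ ρ).y := by
      rw [← hwcast]
      intro h
      have h5 : q ^ (w.factorization q + 1) ∣ w := by exact_mod_cast h
      rw [hqp.pow_dvd_iff_le_factorization hw0] at h5
      omega
    have ht : ¬ q ^ (j.factorization q + 1) ∣ j := by
      intro h
      rw [hqp.pow_dvd_iff_le_factorization hj0] at h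
      omega
    have hL := lte_upper hqp (j.factorization q) (w.factorization q) (a ^ ρ) j hs1 hs2 hs3 ht
    rw [← pow_mul, ← hj, ← hcast] at hL
    have hle : Yk.factorization q ≤ w.factorization q + j.factorization q := by
      by_contra hcon
      push Not at hcon
      apply hL
      have h5 : q ^ (w.factorization q + j.factorization q + 1) ∣ Yk := by
        rw [hqp.pow_dvd_iff_le_factorization hYk0]
        omega
      exact_mod_cast h5
    have hjk : j.factorization q ≤ k.factorization q := by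
      have h5 : j ∣ k := ⟨ρ, by rw [hj, mul_comm]⟩
      exact (Nat.factorization_le_iff_dvd hj0 (by omega)).mpr h5 q
    have hqpos : (1 : ℤ) ≤ q := by exact_mod_cast hqp.one_le
    have h6 : (q : ℤ) ^ (w.factorization q) ≤ (2 * a.x) ^ (q + 1) := by
      calc (q : ℤ) ^ (w.factorization q) ≤ (a ^ ρ).y := Int.le_of_dvd hyρ hs2
        _ ≤ (a ^ ρ).x := y_le_x hd hx hy ρ
        _ ≤ (2 * a.x) ^ ρ := x_pow_le hd hx hy ρ
        _ ≤ (2 * a.x) ^ (q + 1) := pow_le_pow_right₀ (by omega) h2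
    calc (q : ℤ) ^ (Yk.factorization q) ≤ (q : ℤ) ^ (w.factorization q + k.factorization q) :=
          pow_le_pow_right₀ hqpos (by omega)
      _ = (q : ℤ) ^ (w.factorization q) * (q : ℤ) ^ (k.factorization q) := pow_add _ _ _
      _ ≤ (2 * a.x) ^ (q + 1) * (q : ℤ) ^ (k.factorization q) :=
          mul_le_mul_of_nonneg_right h6 (by positivity)
  -- the product over `q`
  have hprodk : (∏ q ∈ Yk.primeFactors, (q : ℤ) ^ (k.factorization q)) ≤ k := by
    have h1 : (∏ q ∈ Yk.primeFactors, q ^ (k.factorization q)) ≤ k := by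
      calc (∏ q ∈ Yk.primeFactors, q ^ (k.factorization q)) =
            ∏ q ∈ Yk.primeFactors ∩ k.primeFactors, q ^ (k.factorization q) := by
              symm
              apply Finset.prod_subset Finset.inter_subset_left
              intro q hq hq'
              have : q ∉ k.primeFactors := fun h => hq' (mem_inter.mpr ⟨hq, h⟩)
              rw [← Nat.support_factorization, Finsupp.notMem_support_iff] at this
              rw [this, pow_zero]
        _ ≤ ∏ q ∈ k.primeFactors, q ^ (k.factorization q) := by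
              apply Finset.prod_le_prod_of_subset_of_one_le' Finset.inter_subset_right
              intro q hq _
              exact Nat.one_le_pow _ _ (Nat.prime_of_mem_primeFactors hq).pos
        _ = k := by
              rw [← Nat.prod_factorization_eq_prod_primeFactors (fun q e => q ^ e)]
              exact Nat.prod_factorization_pow_eq_self (by omega)
    exact_mod_cast h1
  calc (a ^ k).y = ((Yk : ℕ) : ℤ) := hcast.symm
    _ = ((∏ q ∈ Yk.primeFactors, q ^ (Yk.factorization q) : ℕ) : ℤ) := by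
        rw [← Nat.prod_factorization_eq_prod_primeFactors (fun q e => q ^ e),
          Nat.prod_factorization_pow_eq_self hYk0]
    _ = ∏ q ∈ Yk.primeFactors, (q : ℤ) ^ (Yk.factorization q) := by push_cast; rfl
    _ ≤ ∏ q ∈ Yk.primeFactors, ((2 * a.x) ^ (q + 1) * (q : ℤ) ^ (k.factorization q)) :=
        Finset.prod_le_prod (fun q _ => by positivity) hval
    _ = (∏ q ∈ Yk.primeFactors, (2 * a.x) ^ (q + 1)) *
          ∏ q ∈ Yk.primeFactors, (q : ℤ) ^ (k.factorization q) := Finset.prod_mul_distrib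
    _ ≤ (∏ q ∈ Yk.primeFactors, (2 * a.x) ^ (q + 1)) * k := by
        apply mul_le_mul_of_nonneg_left hprodk
        apply Finset.prod_nonneg
        intro q _
        have : 0 < 2 * a.x := by omega
        positivity
    _ = k * ∏ q ∈ Yk.primeFactors, (2 * a.x) ^ (q + 1) := mul_comm _ _

theorem exponent_bound {a : Solution₁ d} (hd : 0 < d) (hx : 1 < a.x) (hy : 0 < a.y) {k : ℕ}
    (hk : 1 ≤ k) {Sg : ℕ}
    (hS : ∑ q ∈ ((a ^ k).y.natAbs).primeFactors, (q + 1) ≤ Sg) :
    (k : ℝ) ≤ 2 * (d + 1) + 2 + 4 * Sg := by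
  have h1 : a.x ^ k ≤ (d + 1) * (k * (2 * a.x) ^ Sg) := by
    calc a.x ^ k ≤ (a ^ k).x := x_pow_ge hd hx hy k
      _ ≤ (d + 1) * (a ^ k).y := x_le_y hd hx hy hk
      _ ≤ (d + 1) * (k * ∏ q ∈ ((a ^ k).y.natAbs).primeFactors, (2 * a.x) ^ (q + 1)) :=
          mul_le_mul_of_nonneg_left (y_pow_le hd hx hy hk) (by omega)
      _ = (d + 1) * (k * (2 * a.x) ^ (∑ q ∈ ((a ^ k).y.natAbs).primeFactors, (q + 1))) := by
          rw [Finset.prod_pow_eq_pow_sum]
      _ ≤ (d + 1) * (k * (2 * a.x) ^ Sg) := by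
          apply mul_le_mul_of_nonneg_left _ (by omega)
          apply mul_le_mul_of_nonneg_left _ (by positivity)
          exact pow_le_pow_right₀ (by omega) hS
  have hxR : (2 : ℝ) ≤ a.x := by exact_mod_cast hx
  have hdR : (0 : ℝ) < d := by exact_mod_cast hd
  have hkR : (1 : ℝ) ≤ k := by exact_mod_cast hk
  have h2 : (a.x : ℝ) ^ k ≤ (d + 1) * (k * (2 * a.x) ^ Sg) := by exact_mod_cast h1
  have h3 := Real.log_le_log (by positivity) h2
  rw [Real.log_pow, Real.log_mul (by positivity) (by positivity),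
    Real.log_mul (by positivity) (by positivity), Real.log_pow] at h3
  have hl2 : 0 < Real.log 2 := Real.log_pos (by norm_num)
  have hlx : Real.log 2 ≤ Real.log a.x := Real.log_le_log (by norm_num) hxR
  have h4 : Real.log (2 * a.x) ≤ 2 * Real.log a.x := by
    rw [Real.log_mul (by norm_num) (by positivity)]
    linarith
  have h5 : Real.log (d + 1) ≤ (d + 1) * Real.log 2 := by
    have h6 : (d + 1 : ℝ) ≤ 2 ^ (d + 1 : ℝ) := by
      have h7 := one_add_mul_self_le_rpow_one_add (show (-1 : ℝ) ≤ 1 by norm_num)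
        (show (1 : ℝ) ≤ d + 1 by linarith)
      norm_num at h7
      linarith
    have h8 := Real.log_le_log (by linarith) h6
    rwa [Real.log_rpow (by norm_num)] at h8
  have h6 : Real.log k ≤ (k / 2 + 1) * Real.log 2 := by
    -- k ≤ 2^(k/2+1) : since log t ≤ t - 1 with t = k/ (2*?)
    have h7 : Real.log (k / 2) ≤ k / 2 * Real.log 2 := by
      rcases le_total (k : ℝ) 2 with h | h
      · have h8 : Real.log (k / 2) ≤ 0 := Real.log_nonpos (by positivity) (by linarith)
        have h9 : 0 ≤ (k : ℝ) / 2 * Real.log 2 := by positivity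
        linarith
      · have h8 := one_add_mul_self_le_rpow_one_add (show (-1 : ℝ) ≤ 1 by norm_num)
          (show (1 : ℝ) ≤ k / 2 by linarith)
        norm_num at h8
        have h9 : (k : ℝ) / 2 ≤ 2 ^ ((k : ℝ) / 2) := by linarith
        have h10 := Real.log_le_log (by positivity) h9
        rwa [Real.log_rpow (by norm_num)] at h10
    rw [Real.log_div (by positivity) (by norm_num)] at h7
    linarith
  have h7 : (k : ℝ) * Real.log a.x ≤ ((d + 1) + (k / 2 + 1) + 2 * Sg) * Real.log a.x := by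
    have g1 : Real.log (d + 1) ≤ (d + 1) * Real.log a.x :=
      h5.trans (mul_le_mul_of_nonneg_left hlx (by linarith))
    have g2 : Real.log k ≤ (k / 2 + 1) * Real.log a.x :=
      h6.trans (mul_le_mul_of_nonneg_left hlx (by positivity))
    have g3 : (Sg : ℝ) * Real.log (2 * a.x) ≤ Sg * (2 * Real.log a.x) :=
      mul_le_mul_of_nonneg_left h4 (by positivity)
    nlinarith
  have h8 : (k : ℝ) ≤ (d + 1) + (k / 2 + 1) + 2 * Sg :=
    le_of_mul_le_mul_right h7 (by linarith)
  linarith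

theorem not_isSquare_mul_succ {n : ℕ} (hn : 1 ≤ n) : ¬ IsSquare (n * (n + 1)) := by
  rintro ⟨c, hc⟩
  have h1 : n < c := by nlinarith
  have h2 : c < n + 1 := by nlinarith
  omega

/-- Effective Stoermer theorem. -/
theorem stoermer {n : ℕ} (hn : 1 ≤ n) :
    Real.log n ≤ 3488 * ((∏ p ∈ (n * (n + 1)).primeFactors, p : ℕ) : ℝ) ^ 6 := by
  classical
  set N : ℕ := n * (n + 1) with hN
  have hN0 : N ≠ 0 := by positivity
  set r : ℕ := ∏ p ∈ N.primeFactors, p with hr
  have h2N : 2 ∣ N := (Nat.even_mul_succ_self n).two_dvd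
  have hrpos : 0 < r := Finset.prod_pos (fun p hp => (Nat.prime_of_mem_primeFactors hp).pos)
  have hqr : ∀ q ∈ N.primeFactors, q ∣ r := fun q hq => Finset.dvd_prod_of_mem (fun p => p) hq
  have hr2 : 2 ≤ r := by
    have : 2 ∈ N.primeFactors := Nat.mem_primeFactors.mpr ⟨Nat.prime_two, h2N, hN0⟩
    exact Nat.le_of_dvd hrpos (hqr 2 this)
  obtain ⟨D, z, hDz, hDsq⟩ := Nat.sq_mul_squarefree N
  have hD0 : D ≠ 0 := by
    rintro rfl
    simp at hDz
    exact hN0 hDz.symm
  have hz0 : z ≠ 0 := by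
    rintro rfl
    simp at hDz
    exact hN0 hDz.symm
  have hDN : D ∣ N := ⟨z ^ 2, by rw [← hDz, mul_comm]⟩
  have hDnsq : ¬ IsSquare D := by
    rintro ⟨c, hc⟩
    apply not_isSquare_mul_succ hn
    rw [← hN, ← hDz, hc]
    exact ⟨z * c, by ring⟩
  have hD2 : 2 ≤ D := by
    by_contra h
    have : D = 1 := by omega
    apply hDnsq
    rw [this]
    exact ⟨1, rfl⟩
  have hDr : D ≤ r := by
    have h1 : D = ∏ p ∈ D.primeFactors, p := (Nat.prod_primeFactors_of_squarefree hDsq).symm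
    rw [h1, hr]
    exact Nat.le_of_dvd hrpos (Finset.prod_dvd_prod_of_subset _ _ _ (Nat.primeFactors_mono hDN hN0))
  -- the Pell solution
  have hsol : (2 * (n : ℤ) + 1) ^ 2 - (D : ℤ) * (2 * (z : ℤ)) ^ 2 = 1 := by
    have h1 : ((z : ℤ) ^ 2 * D) = n * (n + 1) := by exact_mod_cast hDz
    linear_combination (-4) * h1
  set b : Solution₁ (D : ℤ) := Solution₁.mk (2 * (n : ℤ) + 1) (2 * (z : ℤ)) hsol with hb
  have hDZ : (0 : ℤ) < D := by exact_mod_cast Nat.pos_of_ne_zero hD0
  have hDnsqZ : ¬ IsSquare (D : ℤ) := by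
    rintro ⟨c, hc⟩
    apply hDnsq
    refine ⟨c.natAbs, ?_⟩
    have h1 : ((D : ℕ) : ℤ) = ((c.natAbs * c.natAbs : ℕ) : ℤ) := by
      push_cast
      rw [hc, ← abs_mul, abs_mul_self]
    exact_mod_cast h1
  obtain ⟨a, ha⟩ := IsFundamental.exists_of_not_isSquare hDZ hDnsqZ
  have hbx : b.x = 2 * (n : ℤ) + 1 := rfl
  have hby : b.y = 2 * (z : ℤ) := rfl
  obtain ⟨k, hk⟩ := ha.eq_pow_of_nonneg (a := b) (by rw [hbx]; positivity) (by rw [hby]; positivity)
  have hax : 1 < a.x := ha.1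
  have hay : 0 < a.y := ha.2.1
  have hk1 : 1 ≤ k := by
    by_contra h
    have : k = 0 := by omega
    rw [this, pow_zero] at hk
    have h1 : b.y = 0 := by rw [hk]; rfl
    rw [hby] at h1
    have : (0 : ℤ) < z := by exact_mod_cast Nat.pos_of_ne_zero hz0
    omega
  -- the primes dividing `y_k`
  have hprimes : ((a ^ k).y.natAbs).primeFactors ⊆ N.primeFactors := by
    rw [← hk, hby]
    intro q hq
    have hqp := Nat.prime_of_mem_primeFactors hq
    have h1 := Nat.dvd_of_mem_primeFactors hq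
    have e : (2 * (z : ℤ)).natAbs = 2 * z := by
      rw [Int.natAbs_mul]
      rfl
    rw [e] at h1
    rw [Nat.mem_primeFactors]
    refine ⟨hqp, ?_, hN0⟩
    rcases hqp.dvd_mul.mp h1 with h | h
    · exact h.trans h2N
    · exact h.trans ⟨z * D, by rw [← hDz]; ring⟩
  have hS : ∑ q ∈ ((a ^ k).y.natAbs).primeFactors, (q + 1) ≤ r * (r + 1) := by
    calc ∑ q ∈ ((a ^ k).y.natAbs).primeFactors, (q + 1) ≤ ∑ q ∈ N.primeFactors, (q + 1) :=
          Finset.sum_le_sum_of_subset hprimes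
      _ ≤ ∑ _q ∈ N.primeFactors, (r + 1) := by
          apply Finset.sum_le_sum
          intro q hq
          have := Nat.le_of_dvd hrpos (hqr q hq)
          omega
      _ = N.primeFactors.card * (r + 1) := by rw [Finset.sum_const, smul_eq_mul]
      _ ≤ r * (r + 1) := by
          apply Nat.mul_le_mul_right
          calc N.primeFactors.card ≤ (Finset.Icc 1 r).card := by
                apply Finset.card_le_card
                intro q hq
                rw [Finset.mem_Icc]
                exact ⟨(Nat.prime_of_mem_primeFactors hq).one_le, Nat.le_of_dvd hrpos (hqr q hq)⟩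
            _ = r := by rw [Nat.card_Icc]; omega
  have hkb := exponent_bound hDZ hax hay hk1 hS
  have hrR : (2 : ℝ) ≤ r := by exact_mod_cast hr2
  have hDR : (D : ℝ) ≤ r := by exact_mod_cast hDr
  have hk8 : (k : ℝ) ≤ 8 * (r : ℝ) ^ 2 := by
    have e : (((D : ℕ) : ℤ) : ℝ) = (D : ℝ) := by norm_cast
    rw [e] at hkb
    push_cast at hkb
    nlinarith
  -- the fundamental solution is small
  obtain ⟨X, Yy, hXY, hY0, hXle⟩ := small_pell D hD2 hDnsq
  have hXabs : (|X|) ^ 2 - (D : ℤ) * Yy ^ 2 = 1 := by rw [sq_abs]; exact hXY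
  have hX1 : 1 < |X| := by
    have h1 : 0 < Yy ^ 2 := by positivity
    have h2 : 1 < |X| ^ 2 := by nlinarith
    by_contra h
    push Not at h
    have h3 := abs_nonneg X
    nlinarith
  have hax' : a.x ≤ |X| := by
    have := ha.x_le_x (a := Solution₁.mk (|X|) Yy hXabs) hX1
    exact this
  have hnx : (n : ℤ) ≤ (a ^ k).x := by
    rw [← hk, hbx]
    omega
  have hfin : (n : ℤ) ≤ (2 * (4 * (D : ℤ)) ^ (2 * cnt D + 2)) ^ k := by
    calc (n : ℤ) ≤ (a ^ k).x := hnx
      _ ≤ (2 * a.x) ^ k := x_pow_le hDZ hax hay k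
      _ ≤ (2 * (4 * (D : ℤ)) ^ (2 * cnt D + 2)) ^ k := by
          apply pow_le_pow_left₀ (by omega)
          have := hax'.trans hXle
          omega
  have hfinR : (n : ℝ) ≤ (2 * (4 * (D : ℝ)) ^ (2 * cnt D + 2)) ^ k := by exact_mod_cast hfin
  have hnR : (0 : ℝ) < n := by exact_mod_cast hn
  have hDR2 : (2 : ℝ) ≤ D := by exact_mod_cast hD2
  have h1 := Real.log_le_log hnR hfinR
  rw [Real.log_pow, Real.log_mul (by norm_num) (by positivity), Real.log_pow] at h1
  have hlog4D : Real.log (4 * D) ≤ 4 * r := by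
    have := Real.log_le_sub_one_of_pos (show (0 : ℝ) < 4 * D by positivity)
    linarith
  have hlog2 : Real.log 2 ≤ Real.log (4 * D) := Real.log_le_log (by norm_num) (by linarith)
  have hlog0 : 0 ≤ Real.log (4 * D) := Real.log_nonneg (by linarith)
  have hcnt : (cnt D : ℝ) ≤ 54 * (r : ℝ) ^ 3 := by
    unfold cnt
    push_cast
    have g1 : (4 * (D : ℝ) + 3) ≤ 6 * r := by linarith
    have g2 : (2 * (D : ℝ) + 2) ^ 2 ≤ (3 * r) ^ 2 := pow_le_pow_left₀ (by positivity) (by linarith) 2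
    calc (4 * (D : ℝ) + 3) * (2 * D + 2) ^ 2 ≤ 6 * r * (3 * r) ^ 2 :=
          mul_le_mul g1 g2 (by positivity) (by positivity)
      _ = 54 * (r : ℝ) ^ 3 := by ring
  have hr3 : (8 : ℝ) ≤ (r : ℝ) ^ 3 := by
    calc (8 : ℝ) = 2 ^ 3 := by norm_num
      _ ≤ (r : ℝ) ^ 3 := pow_le_pow_left₀ (by norm_num) hrR 3
  have hinner : Real.log 2 + ((2 * cnt D + 2 : ℕ) : ℝ) * Real.log (4 * D) ≤
      109 * (r : ℝ) ^ 3 * (4 * r) := by
    push_cast
    calc Real.log 2 + (2 * (cnt D : ℝ) + 2) * Real.log (4 * D) ≤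
        Real.log (4 * D) + (2 * (cnt D : ℝ) + 2) * Real.log (4 * D) := by linarith
      _ = (2 * (cnt D : ℝ) + 3) * Real.log (4 * D) := by ring
      _ ≤ (109 * (r : ℝ) ^ 3) * (4 * r) := by
          apply mul_le_mul _ hlog4D hlog0 (by positivity)
          linarith
  calc Real.log n ≤ k * (Real.log 2 + ((2 * cnt D + 2 : ℕ) : ℝ) * Real.log (4 * D)) := h1
    _ ≤ (8 * (r : ℝ) ^ 2) * (109 * (r : ℝ) ^ 3 * (4 * r)) := by
        apply mul_le_mul hk8 hinner _ (by positivity)
        have : 0 ≤ Real.log 2 := Real.log_nonneg (by norm_num)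
        positivity
    _ = 3488 * (r : ℝ) ^ 6 := by ring

end Pool.Agent.Lib.Pabc7
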